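import Pool.Agent.H25.DL.Targets
import Pool.Agent.H97.Cubic.Z3
import Pool.Agent.H58.Cubic.Z4

/-!
# Dilated zeros of `L`-functions: module YA

The inverse factor of the functional equation on the critical line, from Stirling's formula for
the argument of the Gamma function (modules Z3, Z4 of the cubic moment project).
-/

set_option autoImplicit false

open Complex

namespace Pool.Agent.H19.DL

open Pool.Agent.H98.Cubic Pool.Agent.H25.DL

theorem conj_chiT (y : ℝ) : (starRingEnd ℂ) (chiT y) =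
    Complex.Gamma (1 / 2 + y * I) * (2 * Real.pi : ℂ) ^ (-(1 / 2 + y * I)) *
      (Real.exp (Real.pi * y / 2) : ℂ) * ei (-(Real.pi / 4)) := by
  unfold chiT
  rw [map_mul, map_mul, map_mul, conj_ei, Complex.conj_ofReal, ← Complex.Gamma_conj]
  have h1 : (starRingEnd ℂ) (1 / 2 - (y : ℂ) * I) = 1 / 2 + y * I := by
    simp [map_ofNat]
  have h2 : (starRingEnd ℂ) ((2 * Real.pi : ℂ) ^ (-1 / 2 + (y : ℂ) * I)) =
      (2 * Real.pi : ℂ) ^ (-(1 / 2 + y * I)) := by
    have h : ((2 * Real.pi : ℂ)) = ((2 * Real.pi : ℝ) : ℂ) := by push_cast; ring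
    have h3 := Complex.cpow_conj ((2 * Real.pi : ℝ) : ℂ) (-1 / 2 + (y : ℂ) * I) (by
      rw [Complex.arg_ofReal_of_nonneg (by positivity)]
      exact Real.pi_pos.ne)
    rw [Complex.conj_ofReal] at h3
    rw [h, ← h3]
    congr 1
    simp [map_ofNat]
    ring
  rw [h1, h2]

theorem G_eq (κ y : ℝ) : Gammaℂ (1 / 2 + y * I) *
      Complex.cos (Real.pi * ((1 / 2 + y * I) - κ) / 2) =
    (starRingEnd ℂ) (chiT y) * ei (Real.pi / 4) *
      (ei (Real.pi * (1 / 2 - κ) / 2) * (Real.exp (-(Real.pi * y)) : ℂ) +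
        ei (-(Real.pi * (1 / 2 - κ) / 2))) := by
  rw [conj_chiT, Complex.Gammaℂ_def]
  have hcos : Complex.cos (Real.pi * ((1 / 2 + y * I) - κ) / 2) =
      (Real.exp (Real.pi * y / 2) : ℂ) * (ei (Real.pi * (1 / 2 - κ) / 2) *
        (Real.exp (-(Real.pi * y)) : ℂ) + ei (-(Real.pi * (1 / 2 - κ) / 2))) / 2 := by
    unfold Complex.cos ei
    congr 1
    rw [mul_add]
    congr 1
    · push_cast
      rw [← Complex.exp_add, ← Complex.exp_add]
      congr 1
      linear_combination (Real.pi * y / 2 : ℂ) * Complex.I_sq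
    · push_cast
      rw [← Complex.exp_add]
      congr 1
      linear_combination -(Real.pi * y / 2 : ℂ) * Complex.I_sq
  have h4 : ei (-(Real.pi / 4)) * ei (Real.pi / 4) = 1 := by
    rw [← ei_add]; simp
  rw [hcos]
  linear_combination (-(Complex.Gamma (1 / 2 + y * I) * (2 * Real.pi : ℂ) ^ (-(1 / 2 + y * I)) *
    (Real.exp (Real.pi * y / 2) : ℂ) * (ei (Real.pi * (1 / 2 - κ) / 2) *
        (Real.exp (-(Real.pi * y)) : ℂ) + ei (-(Real.pi * (1 / 2 - κ) / 2))))) * h4

theorem chi_bound : ∃ C : ℝ, 0 < C ∧ ∀ y : ℝ, 1 ≤ y →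
    ‖(starRingEnd ℂ) (chiT y) - ei (2 * th0 y)‖ ≤ C / y := by
  obtain ⟨C3, hC3, h3⟩ := Pool.Agent.H97.Cubic.z3
  obtain ⟨C4, hC4, h4⟩ := Pool.Agent.H58.Cubic.z4
  have hre := Pool.Agent.H58.Cubic.zreal.2.1
  refine ⟨C4 + 2 * C3, by positivity, fun y hy => ?_⟩
  have hy0 : 0 < y := by linarith
  have e1 : (starRingEnd ℂ) (eTheta y) * eTheta y = 1 := by
    rw [mul_comm, Complex.mul_conj, Complex.normSq_eq_norm_sq, hre y]; simp
  have e2 : ‖(starRingEnd ℂ) (chiT y) - eTheta y ^ 2‖ ≤ C4 / y := by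
    have : (starRingEnd ℂ) (chiT y) - eTheta y ^ 2 =
        (starRingEnd ℂ) (chiT y * eTheta y ^ 2 - 1) * eTheta y ^ 2 := by
      rw [map_sub, map_mul, map_pow, map_one]
      have e3 : (starRingEnd ℂ) (eTheta y) ^ 2 * eTheta y ^ 2 = 1 := by
        rw [← mul_pow, e1, one_pow]
      linear_combination (-(starRingEnd ℂ) (chiT y)) * e3
    rw [this, norm_mul, norm_pow, hre y, one_pow, mul_one, RCLike.norm_conj]
    exact h4 y hy
  have e4 : ‖eTheta y ^ 2 - ei (2 * th0 y)‖ ≤ 2 * C3 / y := by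
    have h : ei (2 * th0 y) = ei (th0 y) ^ 2 := by rw [ei_pow]; norm_num
    rw [h, sq_sub_sq, norm_mul]
    have h5 : ‖eTheta y + ei (th0 y)‖ ≤ 2 := by
      refine (norm_add_le _ _).trans ?_
      rw [hre y, norm_ei]; norm_num
    have h6 := h3 y hy
    calc _ ≤ 2 * (C3 / y) := by gcongr
      _ = _ := by ring
  calc _ = ‖((starRingEnd ℂ) (chiT y) - eTheta y ^ 2) + (eTheta y ^ 2 - ei (2 * th0 y))‖ := by
        congr 1; ring
    _ ≤ C4 / y + 2 * C3 / y := (norm_add_le _ _).trans (add_le_add e2 e4)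
    _ = _ := by ring

theorem G_bound : ∃ C : ℝ, 0 < C ∧ ∀ κ y : ℝ, 1 ≤ y →
    ‖Gammaℂ (1 / 2 + y * I) * Complex.cos (Real.pi * ((1 / 2 + y * I) - κ) / 2) -
      ei (-(Real.pi * (1 / 2 - κ) / 2)) * ei (y * Real.log (y / (2 * Real.pi)) - y)‖ ≤ C / y := by
  obtain ⟨C, hC, h⟩ := chi_bound
  refine ⟨C + (1 + C), by positivity, fun κ y hy => ?_⟩
  have hy0 : 0 < y := by linarith
  have hb := h y hy
  have e1 : ei (y * Real.log (y / (2 * Real.pi)) - y) = ei (2 * th0 y) * ei (Real.pi / 4) := by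
    rw [← ei_add]; congr 1; unfold th0; ring
  have e2 : ‖(starRingEnd ℂ) (chiT y)‖ ≤ 1 + C := by
    have : (starRingEnd ℂ) (chiT y) = ei (2 * th0 y) +
      ((starRingEnd ℂ) (chiT y) - ei (2 * th0 y)) := by ring
    rw [this]
    refine (norm_add_le _ _).trans ?_
    rw [norm_ei]
    have : C / y ≤ C := div_le_self hC.le hy
    linarith
  have e3 : Real.exp (-(Real.pi * y)) ≤ 1 / y := by
    rw [Real.exp_neg, ← one_div]
    apply one_div_le_one_div_of_le hy0
    have := Real.add_one_le_exp (Real.pi * y)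
    have h3 : y ≤ Real.pi * y := by nlinarith [Real.pi_gt_three]
    linarith
  rw [G_eq, e1]
  calc _ = ‖((starRingEnd ℂ) (chiT y) - ei (2 * th0 y)) * (ei (Real.pi / 4) *
        ei (-(Real.pi * (1 / 2 - κ) / 2))) + (starRingEnd ℂ) (chiT y) * (ei (Real.pi / 4) *
        ei (Real.pi * (1 / 2 - κ) / 2)) * (Real.exp (-(Real.pi * y)) : ℂ)‖ := by
        congr 1; ring
    _ ≤ C / y + (1 + C) * (1 / y) := by
        refine (norm_add_le _ _).trans (add_le_add ?_ ?_)
        · rw [norm_mul, norm_mul, norm_ei, norm_ei]; simpa using hb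
        · rw [norm_mul, norm_mul, norm_mul, norm_ei, norm_ei, Complex.norm_real,
            Real.norm_of_nonneg (Real.exp_pos _).le]
          simp only [mul_one]
          gcongr
    _ = _ := by ring

theorem norm_ei_sub (a b : ℝ) : ‖ei a - ei b‖ ≤ |a - b| := by
  have h : ei a - ei b = ei b * (ei (a - b) - 1) := by
    rw [ei_sub]
    have := ei_ne_zero b
    field_simp
  rw [h, norm_mul, norm_ei, one_mul]
  unfold ei
  have := Real.norm_exp_I_mul_ofReal_sub_one_le (x := a - b)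
  rw [mul_comm I] at this
  simpa using this

theorem phase_bound (r τ t : ℝ) (hr : 0 < r) (ht : 0 < t) (hy : 0 < r * t + τ) :
    |((r * t + τ) * Real.log ((r * t + τ) / (2 * Real.pi)) - (r * t + τ)) -
      ((r * t * Real.log t + (r * Real.log r - r - r * Real.log (2 * Real.pi)) * t +
        τ * Real.log t) + τ * Real.log (r / (2 * Real.pi)))| ≤ τ ^ 2 / r / t := by
  have h2 : (0 : ℝ) < 2 * Real.pi := by positivity
  have hrt : 0 < r * t := by positivity
  set y := r * t + τ with hyd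
  have hu : 0 < y / (r * t) := by positivity
  have key : ((r * t + τ) * Real.log ((r * t + τ) / (2 * Real.pi)) - (r * t + τ)) -
      ((r * t * Real.log t + (r * Real.log r - r - r * Real.log (2 * Real.pi)) * t +
        τ * Real.log t) + τ * Real.log (r / (2 * Real.pi))) = y * Real.log (y / (r * t)) - τ := by
    rw [← hyd, Real.log_div hy.ne' h2.ne', Real.log_div hr.ne' h2.ne', Real.log_div hy.ne' hrt.ne',
      Real.log_mul hr.ne' ht.ne']
    have : τ = y - r * t := by rw [hyd]; ring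
    rw [this]; ring
  rw [← hyd] at key
  rw [key]
  have h3 := Real.log_le_sub_one_of_pos hu
  have h4 := Real.one_sub_inv_le_log_of_pos hu
  have h5 : y * Real.log (y / (r * t)) ≤ τ + τ ^ 2 / r / t := by
    calc _ ≤ y * (y / (r * t) - 1) := by gcongr
      _ = _ := by rw [hyd]; field_simp; ring
  have h6 : τ ≤ y * Real.log (y / (r * t)) := by
    calc τ = y * (1 - (y / (r * t))⁻¹) := by
          rw [inv_div]; field_simp; rw [hyd]; ring
      _ ≤ _ := by gcongr
  rw [abs_of_nonneg (by linarith)]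
  linarith

/-- (YA) -/
theorem ya : T_YA := by
  obtain ⟨C, hC, h⟩ := G_bound
  intro κ _ r τ hr
  refine ⟨ei (-(Real.pi * (1 / 2 - κ) / 2)) * ei (τ * Real.log (r / (2 * Real.pi))),
    r * Real.log r - r - r * Real.log (2 * Real.pi), 2 * C / r + τ ^ 2 / r,
    max 1 ((2 * |τ| + 2) / r), ?_, le_max_left _ _, fun t ht => ?_⟩
  · rw [norm_mul, norm_ei, norm_ei, one_mul]
  have ht1 : 1 ≤ t := (le_max_left _ _).trans ht
  have ht0 : 0 < t := by linarith
  have hrt : 2 * |τ| + 2 ≤ r * t := by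
    have := (le_max_right _ _).trans ht
    rw [div_le_iff₀ hr] at this
    linarith
  have hτ := neg_abs_le τ
  have hτ0 := abs_nonneg τ
  have hy : r * t / 2 ≤ r * t + τ := by linarith
  have hy1 : 1 ≤ r * t + τ := by linarith
  have hrt0 : 0 < r * t := by positivity
  have e1 := h κ (r * t + τ) hy1
  have e2 := phase_bound r τ t hr ht0 (by linarith)
  have e3 := norm_ei_sub ((r * t + τ) * Real.log ((r * t + τ) / (2 * Real.pi)) - (r * t + τ))
    ((r * t * Real.log t + (r * Real.log r - r - r * Real.log (2 * Real.pi)) * t +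
        τ * Real.log t) + τ * Real.log (r / (2 * Real.pi)))
  have e4 : C / (r * t + τ) ≤ 2 * C / r / t := by
    calc C / (r * t + τ) ≤ C / (r * t / 2) := by gcongr
      _ = _ := by field_simp
  have e5 : ei ((r * t * Real.log t + (r * Real.log r - r - r * Real.log (2 * Real.pi)) * t +
        τ * Real.log t) + τ * Real.log (r / (2 * Real.pi))) =
      ei (τ * Real.log (r / (2 * Real.pi))) *
        cexp ((r * t * Real.log t + (r * Real.log r - r - r * Real.log (2 * Real.pi)) * t +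
        τ * Real.log t : ℝ) * I) := by
    rw [ei_add, mul_comm]; rfl
  set G := Gammaℂ (1 / 2 + (r * t + τ : ℝ) * I) *
        Complex.cos (Real.pi * ((1 / 2 + (r * t + τ : ℝ) * I) - κ) / 2) with hG
  set P1 := ei ((r * t + τ) * Real.log ((r * t + τ) / (2 * Real.pi)) - (r * t + τ)) with hP1
  set P2 := ei ((r * t * Real.log t + (r * Real.log r - r - r * Real.log (2 * Real.pi)) * t +
        τ * Real.log t) + τ * Real.log (r / (2 * Real.pi))) with hP2
  rw [mul_assoc, ← e5]
  calc ‖G - ei (-(Real.pi * (1 / 2 - κ) / 2)) * P2‖ =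
      ‖(G - ei (-(Real.pi * (1 / 2 - κ) / 2)) * P1) +
        ei (-(Real.pi * (1 / 2 - κ) / 2)) * (P1 - P2)‖ := by congr 1; ring
    _ ≤ 2 * C / r / t + τ ^ 2 / r / t := by
        refine (norm_add_le _ _).trans (add_le_add (e1.trans e4) ?_)
        rw [norm_mul, norm_ei, one_mul]
        exact e3.trans e2
    _ = _ := by ring

end Pool.Agent.H19.DL
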