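import Pool.Agent.H25.DL.Targets
import Pool.Agent.H9.MR.GM

/-!
# (MO) high moments of a dyadic block
-/

set_option autoImplicit false

open Complex MeasureTheory Set
open Pool.Agent.H24.MR (nit)
open Pool.Agent.H25.DL

namespace Pool.Agent.H19.DL

theorem nit_mul {m n : ℕ} (hm : 1 ≤ m) (hn : 1 ≤ n) (t : ℝ) :
    nit (m * n) t = nit m t * nit n t := by
  unfold nit
  rw [← Complex.exp_add]
  congr 1
  have h1 : (m : ℝ) ≠ 0 := by
    have : 0 < m := hm
    exact_mod_cast this.ne'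
  have h2 : (n : ℝ) ≠ 0 := by
    have : 0 < n := hn
    exact_mod_cast this.ne'
  rw [Nat.cast_mul, Real.log_mul h1 h2]
  push_cast
  ring

/-- the number of divisors -/
def dv (n : ℕ) : ℕ := n.divisors.card

theorem dv_one : dv 1 = 1 := by simp [dv]

theorem dv_mul_le (a b : ℕ) : dv (a * b) ≤ dv a * dv b := by
  unfold dv
  rw [Nat.divisors_mul]
  exact Finset.card_mul_le

theorem dv_mono {a b : ℕ} (h : a ∣ b) (hb : b ≠ 0) : dv a ≤ dv b :=
  Finset.card_le_card (Nat.divisors_subset_of_dvd hb h)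

/-- `∑_{m ≤ X} d(m)^i / m ≤ (∑_{m ≤ X} 1 / m) ^ (2 ^ i)` -/
theorem sum_dv (X i : ℕ) :
    ∑ m ∈ Finset.Icc 1 X, (dv m : ℝ) ^ i / m ≤
      (∑ m ∈ Finset.Icc 1 X, (1 : ℝ) / m) ^ (2 ^ i) := by
  induction i with
  | zero => simp
  | succ i ih =>
    have h0 : ∀ m : ℕ, (0 : ℝ) ≤ (dv m : ℝ) ^ i / m := fun m => by positivity
    have h1 : ∑ m ∈ Finset.Icc 1 X, (dv m : ℝ) ^ (i + 1) / m ≤
        ∑ m ∈ Finset.Icc 1 X, ∑ p ∈ m.divisorsAntidiagonal,
          ((dv p.1 : ℝ) ^ i / p.1) * ((dv p.2 : ℝ) ^ i / p.2) := by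
      refine Finset.sum_le_sum fun m hm => ?_
      rw [Finset.mem_Icc] at hm
      have h2 : (dv m : ℝ) ^ (i + 1) / m = ∑ p ∈ m.divisorsAntidiagonal, (dv m : ℝ) ^ i / m := by
        rw [Finset.sum_const, nsmul_eq_mul]
        have : m.divisorsAntidiagonal.card = dv m := by
          unfold dv
          rw [← Nat.map_div_right_divisors, Finset.card_map]
        rw [this, pow_succ]
        ring
      rw [h2]
      refine Finset.sum_le_sum fun p hp => ?_
      rw [Nat.mem_divisorsAntidiagonal] at hp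
      have h3 : (dv m : ℝ) ≤ dv p.1 * dv p.2 := by
        rw [← hp.1]
        exact_mod_cast dv_mul_le _ _
      have h4 : (m : ℝ) = p.1 * p.2 := by rw [← hp.1]; push_cast; ring
      have h5 : (0 : ℝ) ≤ p.1 * p.2 := by positivity
      calc (dv m : ℝ) ^ i / m ≤ (dv p.1 * dv p.2 : ℝ) ^ i / (p.1 * p.2) := by
            rw [h4]
            exact div_le_div_of_nonneg_right (pow_le_pow_left₀ (by positivity) h3 i) h5
        _ = ((dv p.1 : ℝ) ^ i / p.1) * ((dv p.2 : ℝ) ^ i / p.2) := by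
            rw [mul_pow, mul_div_mul_comm]
    refine h1.trans ?_
    rw [Finset.sum_sigma']
    have h2 : ∑ x ∈ (Finset.Icc 1 X).sigma fun m => m.divisorsAntidiagonal,
        ((dv x.2.1 : ℝ) ^ i / x.2.1) * ((dv x.2.2 : ℝ) ^ i / x.2.2) ≤
        ∑ p ∈ Finset.Icc 1 X ×ˢ Finset.Icc 1 X,
          ((dv p.1 : ℝ) ^ i / p.1) * ((dv p.2 : ℝ) ^ i / p.2) := by
      have himg : ∑ x ∈ (Finset.Icc 1 X).sigma fun m => m.divisorsAntidiagonal,
          ((dv x.2.1 : ℝ) ^ i / x.2.1) * ((dv x.2.2 : ℝ) ^ i / x.2.2) =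
          ∑ p ∈ ((Finset.Icc 1 X).sigma fun m => m.divisorsAntidiagonal).image (fun x => x.2),
            ((dv p.1 : ℝ) ^ i / p.1) * ((dv p.2 : ℝ) ^ i / p.2) := by
        rw [Finset.sum_image]
        intro x hx y hy hxy
        rw [Finset.mem_coe, Finset.mem_sigma, Nat.mem_divisorsAntidiagonal] at hx hy
        obtain ⟨m, p⟩ := x
        obtain ⟨m', p'⟩ := y
        simp only at hx hy hxy
        have : m = m' := by rw [← hx.2.1, ← hy.2.1, hxy]
        subst this
        subst hxy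
        rfl
      rw [himg]
      refine Finset.sum_le_sum_of_subset_of_nonneg ?_ fun p _ _ => mul_nonneg (h0 _) (h0 _)
      intro p hp
      rw [Finset.mem_image] at hp
      obtain ⟨x, hx, rfl⟩ := hp
      rw [Finset.mem_sigma, Nat.mem_divisorsAntidiagonal, Finset.mem_Icc] at hx
      have h3 : 0 < x.2.1 * x.2.2 := by rw [hx.2.1]; omega
      have h4 : 0 < x.2.1 := Nat.pos_of_mul_pos_right h3 |> fun h => by
        exact Nat.pos_of_ne_zero fun h0 => by simp [h0] at h3
      have h5 : 0 < x.2.2 := Nat.pos_of_ne_zero fun h0 => by simp [h0] at h3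
      rw [Finset.mem_product, Finset.mem_Icc, Finset.mem_Icc]
      have h6 : x.2.1 * x.2.2 ≤ X := by rw [hx.2.1]; exact hx.1.2
      refine ⟨⟨h4, ?_⟩, ⟨h5, ?_⟩⟩
      · exact (Nat.le_mul_of_pos_right _ h5).trans h6
      · exact (Nat.le_mul_of_pos_left _ h4).trans h6
    refine h2.trans ?_
    rw [Finset.sum_product]
    dsimp only
    rw [← Finset.sum_mul_sum, pow_succ 2 i, pow_mul, pow_two]
    exact mul_le_mul ih ih (Finset.sum_nonneg fun m _ => h0 m) (by positivity)

/-- the powers of a Dirichlet polynomial -/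
theorem pow_expand (N : ℕ) (hN : 1 ≤ N) (c : ℕ → ℂ)
    (hc : ∀ n, 1 ≤ n → ‖c n‖ ≤ (n : ℝ) ^ (-(1 / 2) : ℝ)) (k : ℕ) :
    ∃ a : ℕ → ℂ, (∀ m, 1 ≤ m → ‖a m‖ ≤ (dv m : ℝ) ^ k * (m : ℝ) ^ (-(1 / 2) : ℝ)) ∧
      ∀ u : ℝ, (∑ n ∈ Finset.Ico N (2 * N), c n * nit n u) ^ k =
        ∑ m ∈ Finset.Icc 1 ((2 * N) ^ k), a m * nit m u := by
  induction k with
  | zero =>
    refine ⟨fun m => if m = 1 then 1 else 0, fun m hm => ?_, fun u => ?_⟩
    · by_cases h : m = 1
      · simp [h]
      · simp only [h, if_false, norm_zero]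
        positivity
    · simp [nit]
  | succ k ih =>
    obtain ⟨a, ha, hsum⟩ := ih
    set S := Finset.Ico N (2 * N) with hS
    set M := (2 * N) ^ k with hM
    refine ⟨fun l => ∑ p ∈ (S ×ˢ Finset.Icc 1 M) with p.1 * p.2 = l, c p.1 * a p.2, ?_, ?_⟩
    · intro l hl
      refine (norm_sum_le _ _).trans ?_
      have hcard : ((S ×ˢ Finset.Icc 1 M).filter (fun p => p.1 * p.2 = l)).card ≤ dv l := by
        have h1 : (S ×ˢ Finset.Icc 1 M).filter (fun p => p.1 * p.2 = l) ⊆
            l.divisorsAntidiagonal := by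
          intro p hp
          rw [Finset.mem_filter] at hp
          rw [Nat.mem_divisorsAntidiagonal]
          exact ⟨hp.2, by omega⟩
        refine (Finset.card_le_card h1).trans (le_of_eq ?_)
        unfold dv
        rw [← Nat.map_div_right_divisors, Finset.card_map]
      have hterm : ∀ p ∈ (S ×ˢ Finset.Icc 1 M).filter (fun p => p.1 * p.2 = l),
          ‖c p.1 * a p.2‖ ≤ (dv l : ℝ) ^ k * (l : ℝ) ^ (-(1 / 2) : ℝ) := by
        intro p hp
        rw [Finset.mem_filter, Finset.mem_product, hS, Finset.mem_Ico, Finset.mem_Icc] at hp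
        obtain ⟨⟨⟨h1, -⟩, h2, -⟩, h3⟩ := hp
        have h4 : 1 ≤ p.1 := by omega
        rw [norm_mul]
        have h5 : (dv p.2 : ℝ) ≤ dv l := by
          exact_mod_cast dv_mono (Dvd.intro_left _ h3) (by omega)
        calc ‖c p.1‖ * ‖a p.2‖ ≤ (p.1 : ℝ) ^ (-(1 / 2) : ℝ) *
              ((dv p.2 : ℝ) ^ k * (p.2 : ℝ) ^ (-(1 / 2) : ℝ)) :=
              mul_le_mul (hc _ h4) (ha _ h2) (norm_nonneg _) (by positivity)
          _ = (dv p.2 : ℝ) ^ k * (l : ℝ) ^ (-(1 / 2) : ℝ) := by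
              rw [← h3, Nat.cast_mul, Real.mul_rpow (by positivity) (by positivity)]
              ring
          _ ≤ (dv l : ℝ) ^ k * (l : ℝ) ^ (-(1 / 2) : ℝ) :=
              mul_le_mul_of_nonneg_right (pow_le_pow_left₀ (by positivity) h5 k) (by positivity)
      refine (Finset.sum_le_sum hterm).trans ?_
      rw [Finset.sum_const, nsmul_eq_mul, pow_succ]
      have h6 : ((((S ×ˢ Finset.Icc 1 M).filter (fun p => p.1 * p.2 = l)).card : ℕ) : ℝ) ≤ dv l := by
        exact_mod_cast hcard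
      have h7 : (0 : ℝ) ≤ (dv l : ℝ) ^ k * (l : ℝ) ^ (-(1 / 2) : ℝ) := by positivity
      calc _ ≤ (dv l : ℝ) * ((dv l : ℝ) ^ k * (l : ℝ) ^ (-(1 / 2) : ℝ)) :=
            mul_le_mul_of_nonneg_right h6 h7
        _ = _ := by ring
    · intro u
      have hmaps : ∀ p ∈ S ×ˢ Finset.Icc 1 M, p.1 * p.2 ∈ Finset.Icc 1 ((2 * N) ^ (k + 1)) := by
        intro p hp
        rw [Finset.mem_product, hS, Finset.mem_Ico, Finset.mem_Icc] at hp
        rw [Finset.mem_Icc, pow_succ']
        exact ⟨Nat.mul_pos (by omega) (by omega), Nat.mul_le_mul (by omega) hp.2.2⟩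
      rw [pow_succ, hsum u, mul_comm, Finset.sum_mul_sum, ← Finset.sum_product',
        ← Finset.sum_fiberwise_of_maps_to hmaps]
      refine Finset.sum_congr rfl fun l _ => ?_
      rw [Finset.sum_mul]
      refine Finset.sum_congr rfl fun p hp => ?_
      rw [Finset.mem_filter, Finset.mem_product, hS, Finset.mem_Ico, Finset.mem_Icc] at hp
      rw [← hp.2, nit_mul (by omega) (by omega)]
      ring

theorem norm_nit (n : ℕ) (u : ℝ) : ‖nit n u‖ = 1 := by
  unfold nit
  have : (-((u * Real.log n : ℝ) : ℂ) * Complex.I) = ((-(u * Real.log n) : ℝ) : ℂ) * Complex.I := by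
    push_cast; ring
  rw [this, Complex.norm_exp_ofReal_mul_I]

theorem continuous_nit (n : ℕ) : Continuous (nit n) := by
  unfold nit
  fun_prop

theorem block_eq (f : Fac) (j : ℕ) (t : ℝ) :
    f.B j (1 / 2 + t * I) = ∑ n ∈ Finset.Ico (2 ^ j) (2 * 2 ^ j),
      (f.c n * (n : ℂ) ^ (-(1 / 2 + f.τ * I))) * nit n (f.r * t) := by
  unfold Fac.B
  rw [pow_succ, mul_comm (2 ^ j) 2]
  refine Finset.sum_congr rfl fun n hn => ?_
  rw [Finset.mem_Ico] at hn
  have hn0 : n ≠ 0 := by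
    have : 0 < 2 ^ j := by positivity
    omega
  have hn1 : (n : ℂ) ≠ 0 := by exact_mod_cast hn0
  rw [mul_assoc]
  congr 1
  have h1 : -(wl f.r f.τ (1 / 2 + t * I)) = -(1 / 2 + f.τ * I) + (-(f.r * t : ℝ) : ℂ) * I := by
    unfold wl
    push_cast
    ring
  rw [h1, Complex.cpow_add _ _ hn1]
  congr 1
  rw [Complex.cpow_def_of_ne_zero hn1, nit, ← Complex.natCast_log]
  congr 1
  push_cast
  ring

theorem mo : T_MO := by
  intro k r hk hr
  set K0 : ℝ := 3 * (Real.sqrt Real.pi * Real.exp 1) with hK0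
  have hK0p : 0 < K0 := by positivity
  set E : ℕ := 2 ^ (2 * k) with hE
  set C1 : ℝ := Real.exp 1 / r * K0 * (4 * r + 4 + 2 ^ k) * (k + 2) ^ E with hC1
  have hC1p : 0 < C1 := by positivity
  refine ⟨max C1 E, lt_max_of_lt_left hC1p, ?_⟩
  intro f T j hfr hT hjk
  have hT0 : 0 < T := by linarith
  have hlogT : 1 ≤ Real.log T := by
    rw [Real.le_log_iff_exp_le hT0]
    exact (Real.exp_one_lt_d9.le.trans (by norm_num)).trans hT
  obtain ⟨a, ha, hsum⟩ := pow_expand (2 ^ j) Nat.one_le_two_pow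
    (fun n => f.c n * (n : ℂ) ^ (-(1 / 2 + f.τ * I))) (by
      intro n hn
      rw [norm_mul]
      have hn0 : 0 < n := hn
      rw [Complex.norm_natCast_cpow_of_pos hn0]
      have : (-(1 / 2 + (f.τ : ℂ) * I)).re = -(1 / 2) := by simp
      rw [this]
      exact mul_le_of_le_one_left (by positivity) (f.c_le n)) k
  set S := Finset.Icc 1 ((2 * 2 ^ j) ^ k) with hS
  set F : ℝ → ℝ := fun u => ‖∑ m ∈ S, a m * nit m u‖ ^ 2 with hF
  have hFc : Continuous F := by
    have : Continuous fun u => ∑ m ∈ S, a m * nit m u :=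
      continuous_finsetSum _ fun m _ => continuous_const.mul (continuous_nit m)
    exact this.norm.pow 2
  have hF0 : ∀ u, 0 ≤ F u := fun u => by positivity
  have h1 : ∀ t : ℝ, ‖f.B j (1 / 2 + t * I)‖ ^ (2 * k) = F (r * t) := by
    intro t
    rw [block_eq, hfr, mul_comm 2 k, pow_mul, ← norm_pow, hsum]
  simp only [h1]
  rw [intervalIntegral.integral_comp_mul_left _ hr.ne', mul_zero, smul_eq_mul]
  set T' : ℝ := 4 * r * T + 4 with hT'
  have hT'4 : 4 ≤ T' := by
    have : 0 < r * T := by positivity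
    rw [hT']; linarith
  have hT'0 : 0 < T' := by linarith
  -- comparison with the Gaussian integral
  have hbd : ∃ B, ∀ u, F u ≤ B := by
    refine ⟨(∑ m ∈ S, ‖a m‖) ^ 2, fun u => ?_⟩
    refine pow_le_pow_left₀ (norm_nonneg _) ?_ 2
    refine (norm_sum_le _ _).trans (Finset.sum_le_sum fun m _ => ?_)
    rw [norm_mul, norm_nit, mul_one]
  obtain ⟨B, hB⟩ := hbd
  have hgint : Integrable (Pool.Agent.H24.MR.GM.gw T') := Pool.Agent.H24.MR.GM.gw_integrable hT'0
  have hgw0 : ∀ u, 0 ≤ Pool.Agent.H24.MR.GM.gw T' u := fun u => (Real.exp_pos _).le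
  have hint : Integrable fun u => F u * Pool.Agent.H24.MR.GM.gw T' u := by
    refine hgint.bdd_mul hFc.aestronglyMeasurable (Filter.Eventually.of_forall fun u => ?_) (c := B)
    rw [Real.norm_of_nonneg (hF0 u)]
    exact hB u
  have h2 : ∫ u in (0 : ℝ)..(r * (4 * T)), F u ≤
      Real.exp 1 * ∫ u : ℝ, F u * Pool.Agent.H24.MR.GM.gw T' u := by
    rw [← integral_const_mul, intervalIntegral.integral_of_le (by positivity)]
    refine (setIntegral_mono_on (hFc.integrableOn_Icc.mono_set Ioc_subset_Icc_self)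
      ((hint.const_mul _).integrableOn) measurableSet_Ioc fun u hu => ?_).trans
      (setIntegral_le_integral (hint.const_mul _) (Filter.Eventually.of_forall fun u => ?_))
    · have h3 : (u / T') ^ 2 ≤ 1 := by
        have h4 : u / T' ≤ 1 := by
          rw [div_le_one hT'0, hT']
          have := hu.2
          linarith
        have h5 : 0 ≤ u / T' := div_nonneg hu.1.le hT'0.le
        nlinarith
      have h4 : 1 ≤ Real.exp 1 * Pool.Agent.H24.MR.GM.gw T' u := by
        unfold Pool.Agent.H24.MR.GM.gw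
        rw [← Real.exp_add]
        exact Real.one_le_exp (by linarith)
      calc F u = F u * 1 := (mul_one _).symm
        _ ≤ F u * (Real.exp 1 * Pool.Agent.H24.MR.GM.gw T' u) := mul_le_mul_of_nonneg_left h4 (hF0 u)
        _ = _ := by ring
    · exact mul_nonneg (Real.exp_pos 1).le (mul_nonneg (hF0 u) (hgw0 u))
  have h3 := Pool.Agent.H24.MR.GM.main hT'4 S a (fun n hn => (Finset.mem_Icc.mp hn).1)
  -- the size of the coefficients
  have hX : ((2 * 2 ^ j : ℕ) : ℝ) ^ k ≤ 2 ^ k * T := by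
    push_cast
    rw [mul_pow]
    exact mul_le_mul_of_nonneg_left hjk (by positivity)
  have h4 : ∑ n ∈ S, ‖a n‖ ^ 2 * (T' + n) ≤ (4 * r + 4 + 2 ^ k) * T *
      ∑ m ∈ S, (dv m : ℝ) ^ (2 * k) / m := by
    rw [Finset.mul_sum]
    refine Finset.sum_le_sum fun m hm => ?_
    rw [hS, Finset.mem_Icc] at hm
    have hm0 : (0 : ℝ) < m := by
      have : 0 < m := hm.1
      exact_mod_cast this
    have h5 : ‖a m‖ ^ 2 ≤ (dv m : ℝ) ^ (2 * k) / m := by
      calc ‖a m‖ ^ 2 ≤ ((dv m : ℝ) ^ k * (m : ℝ) ^ (-(1 / 2) : ℝ)) ^ 2 :=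
            pow_le_pow_left₀ (norm_nonneg _) (ha m hm.1) 2
        _ = (dv m : ℝ) ^ (2 * k) / m := by
            rw [mul_pow, ← pow_mul, mul_comm k 2, ← Real.rpow_natCast ((m : ℝ) ^ (-(1 / 2) : ℝ)) 2,
              ← Real.rpow_mul hm0.le]
            norm_num
            rw [Real.rpow_neg_one, div_eq_mul_inv]
    have h6 : T' + m ≤ (4 * r + 4 + 2 ^ k) * T := by
      have h7 : (m : ℝ) ≤ 2 ^ k * T := by
        refine le_trans ?_ hX
        exact_mod_cast hm.2
      rw [hT']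
      nlinarith
    rw [mul_comm (‖a m‖ ^ 2)]
    exact mul_le_mul h6 h5 (by positivity) (by positivity)
  have h5 : ∑ m ∈ S, (dv m : ℝ) ^ (2 * k) / m ≤ ((k + 2) * Real.log T) ^ E := by
    refine (sum_dv _ (2 * k)).trans ?_
    refine pow_le_pow_left₀ (Finset.sum_nonneg fun m _ => by positivity) ?_ _
    have h6 : ∑ m ∈ Finset.Icc 1 ((2 * 2 ^ j) ^ k), (1 : ℝ) / ((m : ℕ) : ℝ) =
        ((harmonic ((2 * 2 ^ j) ^ k) : ℚ) : ℝ) := by
      rw [harmonic_eq_sum_Icc]
      push_cast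
      simp
    rw [h6]
    refine (harmonic_le_one_add_log _).trans ?_
    have h7 : Real.log (((2 * 2 ^ j) ^ k : ℕ) : ℝ) ≤ k + Real.log T := by
      have h8 : Real.log (((2 * 2 ^ j) ^ k : ℕ) : ℝ) ≤ Real.log (2 ^ k * T) := by
        apply Real.log_le_log (by positivity)
        exact_mod_cast hX
      refine h8.trans ?_
      rw [Real.log_mul (by positivity) hT0.ne', Real.log_pow]
      have h9 : Real.log 2 ≤ 1 := by
        have := Real.log_two_lt_d9
        linarith
      have : (k : ℝ) * Real.log 2 ≤ k := mul_le_of_le_one_right (by positivity) h9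
      linarith
    have : (0 : ℝ) ≤ k := by positivity
    nlinarith
  have hlogE : Real.log T ^ E ≤ Real.log T ^ (max C1 (E : ℝ)) := by
    rw [← Real.rpow_natCast]
    exact Real.rpow_le_rpow_of_exponent_le hlogT (le_max_right _ _)
  have hsumle : ∫ u : ℝ, F u * Pool.Agent.H24.MR.GM.gw T' u ≤
      K0 * ((4 * r + 4 + 2 ^ k) * T * ((k + 2) * Real.log T) ^ E) := by
    refine h3.trans (mul_le_mul_of_nonneg_left (h4.trans ?_) hK0p.le)
    exact mul_le_mul_of_nonneg_left h5 (by positivity)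
  calc r⁻¹ * ∫ u in (0 : ℝ)..(r * (4 * T)), F u
      ≤ r⁻¹ * (Real.exp 1 * (K0 * ((4 * r + 4 + 2 ^ k) * T * ((k + 2) * Real.log T) ^ E))) :=
        mul_le_mul_of_nonneg_left (h2.trans (mul_le_mul_of_nonneg_left hsumle
          (Real.exp_pos 1).le)) (by positivity)
    _ = C1 * T * Real.log T ^ E := by
        rw [hC1, mul_pow]
        field_simp
    _ ≤ max C1 E * T * Real.log T ^ (max C1 (E : ℝ)) := by
        refine mul_le_mul (mul_le_mul_of_nonneg_right (le_max_left _ _) hT0.le) hlogE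
          (by positivity) (by positivity)

end Pool.Agent.H19.DL
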